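import Pool.Agent.Helper69.QC.St2

/-! # Project QD, part C: module FIN -/

set_option autoImplicit false

open Complex MeasureTheory Set Filter Topology Metric
open scoped Real ENNReal

namespace Pool.Agent.Helper22.QC

open Pool.Agent.Helper35.PM Pool.Agent.Helper69.QC

/-- The scales. -/
noncomputable def ysc : ℕ → ℝ
  | 0 => 1
  | (k + 1) => -Real.log (rr ((2 : ℝ) ^ k))

theorem rr_pos (rrb : St_RRB) (k : ℕ) : 0 < rr ((2 : ℝ) ^ k) := by
  obtain ⟨-, -, h3, -, -, -, -, h8⟩ := rrb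
  have h := h3 (show (0 : ℝ) < 2 ^ k by positivity)
  rwa [h8] at h

theorem ysc_pos (rrb : St_RRB) (k : ℕ) : 0 < ysc k := by
  cases k with
  | zero => exact one_pos
  | succ k =>
    have h := Real.log_neg (rr_pos rrb k) (rrb.2.1 _)
    show 0 < -Real.log (rr ((2 : ℝ) ^ k))
    linarith

theorem exp_ysc (rrb : St_RRB) (k : ℕ) : Real.exp (-(ysc (k + 1))) = rr ((2 : ℝ) ^ k) := by
  show Real.exp (-(-Real.log (rr ((2 : ℝ) ^ k)))) = _
  rw [neg_neg, Real.exp_log (rr_pos rrb k)]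

theorem ysc_anti (rrb : St_RRB) : Antitone ysc := by
  apply antitone_nat_of_succ_le
  intro k
  cases k with
  | zero =>
    show -Real.log (rr ((2 : ℝ) ^ 0)) ≤ 1
    have h5 := rrb.2.2.2.2.1 ((2 : ℝ) ^ 0)
    have hp := rr_pos rrb 0
    rw [pow_zero] at h5 hp ⊢
    have he := Real.exp_one_gt_d9
    have h6 : Real.exp (-1) ≤ rr 1 := by
      have h7 : rr 1 = 1 - 2 / (Real.exp 1 + 1) := by linarith
      rw [h7, Real.exp_neg]
      have h8 : (0 : ℝ) < Real.exp 1 := Real.exp_pos _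
      have h9 : 1 - 2 / (Real.exp 1 + 1) - (Real.exp 1)⁻¹ =
          (Real.exp 1 * Real.exp 1 - 2 * Real.exp 1 - 1) /
            ((Real.exp 1 + 1) * Real.exp 1) := by
        field_simp
        ring
      have h10 : 0 ≤ (Real.exp 1 * Real.exp 1 - 2 * Real.exp 1 - 1) /
            ((Real.exp 1 + 1) * Real.exp 1) := by
        apply div_nonneg
        · nlinarith
        · positivity
      linarith
    have h11 := Real.log_le_log (Real.exp_pos _) h6
    rw [Real.log_exp] at h11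
    linarith
  | succ k =>
    show -Real.log (rr ((2 : ℝ) ^ (k + 1))) ≤ -Real.log (rr ((2 : ℝ) ^ k))
    apply neg_le_neg
    apply Real.log_le_log (rr_pos rrb k)
    apply rrb.2.2.1.monotone
    exact pow_le_pow_right₀ (by norm_num) (Nat.le_succ k)

theorem log_ysc (rrb : St_RRB) (k : ℕ) : Real.log (ysc k / ysc (k + 1)) ≤ (2 : ℝ) ^ k := by
  have h1 : ysc k ≤ 1 := by
    have := ysc_anti rrb (Nat.zero_le k)
    exact this
  have h2 : Real.exp (-((2 : ℝ) ^ k)) ≤ ysc (k + 1) := by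
    have h3 : 1 - rr ((2 : ℝ) ^ k) ≤ ysc (k + 1) := by
      show 1 - rr ((2 : ℝ) ^ k) ≤ -Real.log (rr ((2 : ℝ) ^ k))
      have := Real.log_le_sub_one_of_pos (rr_pos rrb k)
      linarith
    refine le_trans ?_ h3
    rw [rrb.2.2.2.2.1, Real.exp_neg]
    have h4 : 1 ≤ Real.exp ((2 : ℝ) ^ k) := Real.one_le_exp (by positivity)
    rw [inv_le_comm₀ (by positivity) (by positivity), inv_div, div_le_iff₀ (by norm_num)]
    linarith
  have h5 : ysc k / ysc (k + 1) ≤ Real.exp ((2 : ℝ) ^ k) := by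
    rw [div_le_iff₀ (ysc_pos rrb _)]
    have h6 : Real.exp ((2 : ℝ) ^ k) * Real.exp (-((2 : ℝ) ^ k)) = 1 := by
      rw [← Real.exp_add, add_neg_cancel, Real.exp_zero]
    have h7 := mul_le_mul_of_nonneg_left h2 (Real.exp_pos ((2 : ℝ) ^ k)).le
    linarith
  have h8 := Real.log_le_log (div_pos (ysc_pos rrb k) (ysc_pos rrb (k + 1))) h5
  rwa [Real.log_exp] at h8

theorem pt_circle (y θ : ℝ) : pt (-y) θ = circleMap 0 (Real.exp (-y)) θ := by
  unfold pt circleMap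
  rw [zero_add, Complex.exp_add, Complex.ofReal_exp]

theorem norm_pt (y θ : ℝ) (hy : 0 < y) : pt (-y) θ ∈ ball (0 : ℂ) 1 := by
  rw [pt_circle, mem_ball, dist_zero_right, norm_circleMap_zero, abs_of_pos (Real.exp_pos _)]
  rw [Real.exp_lt_one_iff]
  linarith

theorem mdef_cm (rrb : St_RRB) {g : ℕ} (f : ℂ → SurfaceGroup g →* SL) (k : ℕ) :
    mdef f (ysc (k + 1)) = cm (fun w => vv (f w)) ((2 : ℝ) ^ k) := by
  unfold mdef cm Real.circleAverage vv
  rw [smul_eq_mul]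
  simp only [pt_circle, exp_ysc rrb k]

theorem mdef_le {g : ℕ} (f : ℂ → SurfaceGroup g →* SL) (V0 y : ℝ) (hy : 0 < y)
    (h0 : ∀ w ∈ ball (0 : ℂ) 1, 0 ≤ vv (f w)) (h1 : ∀ w ∈ ball (0 : ℂ) 1, vv (f w) ≤ V0) :
    mdef f y ≤ V0 := by
  have h2 : ‖∫ θ in (0 : ℝ)..(2 * π), vv (f (pt (-y) θ))‖ ≤ V0 * |2 * π - 0| := by
    apply intervalIntegral.norm_integral_le_of_norm_le_const
    intro θ _
    have h3 := norm_pt y θ hy
    rw [Real.norm_eq_abs, abs_of_nonneg (h0 _ h3)]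
    exact h1 _ h3
  have h4 : mdef f y = (2 * π)⁻¹ * ∫ θ in (0 : ℝ)..(2 * π), vv (f (pt (-y) θ)) := rfl
  rw [h4]
  have h5 : (0 : ℝ) < 2 * π := by positivity
  have h6 := (le_abs_self _).trans h2
  rw [sub_zero, abs_of_pos h5] at h6
  have h7 := mul_le_mul_of_nonneg_left h6 (inv_pos.2 h5).le
  have h8 : (2 * π)⁻¹ * (V0 * (2 * π)) = V0 := by
    field_simp
  linarith

/-- The ratio `√(1/2)`. -/
noncomputable def rt : ℝ := Real.sqrt (1 / 2)

theorem rt_pos : 0 < rt := Real.sqrt_pos.2 (by norm_num)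

theorem rt_sq : rt ^ 2 = 1 / 2 := Real.sq_sqrt (by norm_num)

theorem rt_lt : rt < 1 := by
  have h1 := rt_sq
  have h2 := rt_pos
  nlinarith

theorem summ : Summable fun j : ℕ => ((j : ℝ) + 1) ^ 2 * rt ^ j := by
  have h1 : Summable fun n : ℕ => (n : ℝ) ^ 2 * rt ^ n :=
    summable_pow_mul_geometric_of_norm_lt_one 2 (by
      rw [Real.norm_eq_abs, abs_of_pos rt_pos]
      exact rt_lt)
  have h2 := ((summable_nat_add_iff 1).2 h1).mul_right rt⁻¹
  refine h2.congr fun j => ?_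
  have h3 := rt_pos.ne'
  rw [Nat.cast_add, Nat.cast_one]
  field_simp
  ring

theorem term_le (rrb : St_RRB) (K m : ℝ) (hK : 0 ≤ K) (j : ℕ)
    (hm : m ≤ K * ((j : ℝ) + 1) ^ 3 / 4 ^ j) :
    Real.sqrt m * Real.sqrt (Real.log (ysc (j + 1) / ysc (j + 2))) ≤
      2 * Real.sqrt K * (((j : ℝ) + 1) ^ 2 * rt ^ j) := by
  have h1 := log_ysc rrb (j + 1)
  have hj : (0 : ℝ) ≤ j := Nat.cast_nonneg j
  have h2 : Real.sqrt m * Real.sqrt (Real.log (ysc (j + 1) / ysc (j + 2))) ≤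
      Real.sqrt (K * ((j : ℝ) + 1) ^ 3 / 4 ^ j) * Real.sqrt ((2 : ℝ) ^ (j + 1)) :=
    mul_le_mul (Real.sqrt_le_sqrt hm) (Real.sqrt_le_sqrt h1) (Real.sqrt_nonneg _)
      (Real.sqrt_nonneg _)
  refine h2.trans ?_
  rw [← Real.sqrt_mul (by positivity)]
  apply Real.sqrt_le_iff.2
  have hrt := rt_pos
  refine ⟨by positivity, ?_⟩
  have h3 : (2 * Real.sqrt K * (((j : ℝ) + 1) ^ 2 * rt ^ j)) ^ 2 =
      4 * K * ((j : ℝ) + 1) ^ 4 * (1 / 2) ^ j := by
    have h4 : (rt ^ j) ^ 2 = (1 / 2) ^ j := by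
      rw [← pow_mul, mul_comm, pow_mul, rt_sq]
    calc (2 * Real.sqrt K * (((j : ℝ) + 1) ^ 2 * rt ^ j)) ^ 2
        = 4 * (Real.sqrt K) ^ 2 * ((j : ℝ) + 1) ^ 4 * (rt ^ j) ^ 2 := by ring
      _ = _ := by rw [h4, Real.sq_sqrt hK]
  rw [h3]
  have h5 : K * ((j : ℝ) + 1) ^ 3 / 4 ^ j * 2 ^ (j + 1) =
      2 * K * ((j : ℝ) + 1) ^ 3 * (1 / 2) ^ j := by
    have h6 : (4 : ℝ) ^ j = 2 ^ j * 2 ^ j := by
      rw [← mul_pow]
      norm_num
    rw [h6, one_div, inv_pow]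
    field_simp
    ring
  rw [h5]
  have h7 : 0 ≤ (1 / 2 : ℝ) ^ j := by positivity
  have h8 : 2 * K * ((j : ℝ) + 1) ^ 3 ≤ 4 * K * ((j : ℝ) + 1) ^ 4 := by
    have h9 : 0 ≤ K * ((j : ℝ) + 1) ^ 3 := by positivity
    nlinarith [mul_nonneg h9 hj]
  exact mul_le_mul_of_nonneg_right h8 h7

/-- Module FIN. -/
theorem cFIN (rrb : St_RRB) (mvv : St_MVV) (mcc : St_MCC) : St_FIN := by
  intro K V0 hK hV0
  set T : ℝ := ∑' j : ℕ, ((j : ℝ) + 1) ^ 2 * rt ^ j with hT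
  have hT0 : 0 ≤ T := tsum_nonneg fun j => by
    have := rt_pos
    positivity
  refine ⟨3 + 2 * Real.sqrt V0 + 4 * Real.sqrt K * T, by positivity, ?_⟩
  intro g hg U hU F h1 h2 hV hC L hL
  have hz0 : (0 : ℂ) ∈ ball (0 : ℂ) 1 := mem_ball_self one_pos
  have hzL : zt L ∈ ball (0 : ℂ) 1 := by
    rw [mem_ball, dist_zero_right]
    unfold zt
    rw [Complex.norm_real, Real.norm_eq_abs]
    exact Real.abs_tanh_lt_one _
  have hnn : ∀ z ∈ ball (0 : ℂ) 1, ∀ w ∈ ball (0 : ℂ) 1, 0 ≤ vv (F z w) := fun z hz =>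
    (mvv g hg U hU (F z) (h1 z hz)).1.1
  have hm0 : ∀ z ∈ ball (0 : ℂ) 1, mdef (F z) (ysc 0) ≤ V0 := fun z hz =>
    mdef_le (F z) V0 (ysc 0) (ysc_pos rrb 0) (hnn z hz) (hV z hz)
  have hmk : ∀ z ∈ ball (0 : ℂ) 1, ∀ k : ℕ,
      mdef (F z) (ysc (k + 1)) ≤ K * ((k : ℝ) + 1) ^ 3 / 4 ^ k := fun z hz k => by
    rw [mdef_cm rrb]
    exact hC z hz k
  have hfirst : (Real.sqrt (mdef (F 0) (ysc 0)) + Real.sqrt (mdef (F (zt L)) (ysc 0))) *
      Real.sqrt (Real.log (ysc 0 / ysc 1)) ≤ 2 * Real.sqrt V0 := by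
    have h3 : Real.sqrt (Real.log (ysc 0 / ysc 1)) ≤ 1 := by
      apply Real.sqrt_le_iff.2
      have := log_ysc rrb 0
      rw [pow_zero] at this
      exact ⟨zero_le_one, by linarith⟩
    have h4 := Real.sqrt_le_sqrt (hm0 0 hz0)
    have h5 := Real.sqrt_le_sqrt (hm0 _ hzL)
    have h6 : (Real.sqrt (mdef (F 0) (ysc 0)) + Real.sqrt (mdef (F (zt L)) (ysc 0))) *
      Real.sqrt (Real.log (ysc 0 / ysc 1)) ≤ (Real.sqrt V0 + Real.sqrt V0) * 1 :=
      mul_le_mul (add_le_add h4 h5) h3 (Real.sqrt_nonneg _) (by positivity)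
    linarith
  have hb : ∀ m : ℕ, pressureDist U (F 0 0) (F (zt L) 0) ≤ ENNReal.ofReal
      (3 + 2 * Real.sqrt V0 + 4 * Real.sqrt K * T +
        (L + 2) * Real.sqrt (2 * (K * ((m : ℝ) + 1) ^ 3 / 4 ^ m))) := by
    intro m
    refine (dt_ g hg U hU F h1 h2 L hL (m + 1) ysc rfl (ysc_anti rrb) (ysc_pos rrb)).trans ?_
    apply ENNReal.ofReal_le_ofReal
    have h7 := mcc g hg U hU F h1 h2 (K * ((m : ℝ) + 1) ^ 3 / 4 ^ m) (ysc (m + 1)) L
      (by positivity) (ysc_pos rrb _) hL (fun z hz => hmk z hz m)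
    have h8 : ∑ k ∈ Finset.range (m + 1), (Real.sqrt (mdef (F 0) (ysc k)) +
        Real.sqrt (mdef (F (zt L)) (ysc k))) * Real.sqrt (Real.log (ysc k / ysc (k + 1))) ≤
        2 * Real.sqrt V0 + 4 * Real.sqrt K * T := by
      rw [Finset.sum_range_succ']
      have h9 : ∑ k ∈ Finset.range m, (Real.sqrt (mdef (F 0) (ysc (k + 1))) +
          Real.sqrt (mdef (F (zt L)) (ysc (k + 1)))) *
            Real.sqrt (Real.log (ysc (k + 1) / ysc (k + 1 + 1))) ≤ 4 * Real.sqrt K * T := by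
        calc _ ≤ ∑ k ∈ Finset.range m, 4 * Real.sqrt K * (((k : ℝ) + 1) ^ 2 * rt ^ k) := by
              apply Finset.sum_le_sum
              intro k _
              have h10 := term_le rrb K _ hK k (hmk 0 hz0 k)
              have h11 := term_le rrb K _ hK k (hmk _ hzL k)
              rw [add_mul]
              linarith
          _ = 4 * Real.sqrt K * ∑ k ∈ Finset.range m, ((k : ℝ) + 1) ^ 2 * rt ^ k := by
              rw [Finset.mul_sum]
          _ ≤ 4 * Real.sqrt K * T := by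
              apply mul_le_mul_of_nonneg_left _ (by positivity)
              apply summ.sum_le_tsum
              intro j _
              have := rt_pos
              positivity
      have h12 : ysc (0 + 1) = ysc 1 := rfl
      rw [h12]
      linarith
    linarith
  have hlim : Tendsto (fun m : ℕ => ENNReal.ofReal
      (3 + 2 * Real.sqrt V0 + 4 * Real.sqrt K * T +
        (L + 2) * Real.sqrt (2 * (K * ((m : ℝ) + 1) ^ 3 / 4 ^ m)))) atTop
      (𝓝 (ENNReal.ofReal (3 + 2 * Real.sqrt V0 + 4 * Real.sqrt K * T +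
        (L + 2) * Real.sqrt 0))) := by
    apply ENNReal.tendsto_ofReal
    refine tendsto_const_nhds.add (tendsto_const_nhds.mul ?_)
    refine (Real.continuous_sqrt.tendsto 0).comp ?_
    have h13 : Tendsto (fun n : ℕ => (n : ℝ) ^ 3 / 4 ^ n) atTop (𝓝 0) :=
      tendsto_pow_const_div_const_pow_of_one_lt 3 (by norm_num)
    have h14 := ((tendsto_add_atTop_iff_nat 1).2 h13).const_mul (8 * K)
    rw [mul_zero] at h14
    refine h14.congr fun m => ?_
    rw [pow_succ (4 : ℝ) m, Nat.cast_add, Nat.cast_one]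
    field_simp
    ring
  rw [Real.sqrt_zero, mul_zero, add_zero] at hlim
  exact ge_of_tendsto' hlim hb

end Pool.Agent.Helper22.QC
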